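import Mathlib

set_option autoImplicit false

namespace Pool.Agent.Results.MP_9d9710_co.Counter

/-- y lies in P = {1, ..., (p-1)/2}. -/
def InP {p : ℕ} (y : ZMod p) : Prop := 1 ≤ y.val ∧ y.val ≤ (p - 1) / 2

/-- x lies in S: for some ordering of the coordinates, the first is 0, the second is in P and the
third is in -P. -/
def InS {p : ℕ} (x : Fin 3 → ZMod p) : Prop :=
  ∃ σ : Equiv.Perm (Fin 3), x (σ 0) = 0 ∧ InP (x (σ 1)) ∧ InP (-x (σ 2))

lemma not_both {p : ℕ} [NeZero p] (y : ZMod p) (h1 : InP y) (h2 : InP (-y)) : False := by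
  have hy : y ≠ 0 := by
    rintro rfl
    simp [InP] at h1
  rw [InP, ZMod.neg_val, if_neg hy] at h2
  have := h1.2
  have := ZMod.val_lt y
  omega

lemma not_zero {p : ℕ} (h1 : InP (0 : ZMod p)) : False := by
  simp [InP] at h1

lemma notS {p : ℕ} [NeZero p] (s w : ZMod p) : ¬ InS ![s, s, w] := by
  rintro ⟨σ, h0, h1, h2⟩
  have n01 : σ 0 ≠ σ 1 := σ.injective.ne (by decide)
  have n02 : σ 0 ≠ σ 2 := σ.injective.ne (by decide)
  have n12 : σ 1 ≠ σ 2 := σ.injective.ne (by decide)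
  generalize σ 0 = a at *
  generalize σ 1 = b at *
  generalize σ 2 = c at *
  fin_cases a <;> fin_cases b <;> fin_cases c <;> simp at n01 n02 n12 h0 h1 h2
  all_goals first
    | exact not_both _ h1 h2
    | (subst h0; first | exact not_zero h1 | exact not_zero (by simpa using h2))

theorem result :
    ¬ ∃ δ : ℝ, 0 < δ ∧ ∃ p₀ : ℕ, ∀ p : ℕ, p.Prime → p₀ ≤ p →
      ∀ A : Finset (Fin 3 → ZMod p), (∀ a ∈ A, ∀ a' ∈ A, ¬ InS (a - a')) →
        (A.card : ℝ) ≤ (p : ℝ) ^ (2 - δ) := by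
  rintro ⟨δ, hδ, p₀, h⟩
  obtain ⟨p, hp, hpp⟩ := Nat.exists_infinite_primes p₀
  haveI : NeZero p := ⟨hpp.ne_zero⟩
  have inj : Function.Injective (fun x : ZMod p × ZMod p => (![x.1, x.1, x.2] : Fin 3 → ZMod p)) := by
    intro x y hxy
    exact Prod.ext (by simpa using congrFun hxy 0) (by simpa using congrFun hxy 2)
  have h1 := h p hpp hp (Finset.univ.image (fun x : ZMod p × ZMod p => ![x.1, x.1, x.2])) (by
    intro a ha a' ha'
    obtain ⟨x, -, rfl⟩ := Finset.mem_image.1 ha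
    obtain ⟨y, -, rfl⟩ := Finset.mem_image.1 ha'
    have : (![x.1, x.1, x.2] - ![y.1, y.1, y.2] : Fin 3 → ZMod p) = ![x.1 - y.1, x.1 - y.1, x.2 - y.2] := by
      funext i; fin_cases i <;> rfl
    rw [this]
    exact notS _ _)
  rw [Finset.card_image_of_injective _ inj] at h1
  simp only [Finset.card_univ, Fintype.card_prod, ZMod.card] at h1
  have h2 : (1 : ℝ) < p := by exact_mod_cast hpp.one_lt
  have h3 : (p : ℝ) ^ (2 - δ) < (p : ℝ) ^ (2 : ℝ) := Real.rpow_lt_rpow_of_exponent_lt h2 (by linarith)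
  rw [Real.rpow_two] at h3
  push_cast at h1
  nlinarith

end Pool.Agent.Results.MP_9d9710_co.Counter
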